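import Pool.Agent.X77.SB.Num

set_option autoImplicit false

namespace Pool.Agent.X77.SB

open Finset

section count

variable {L : Type} [Fintype L] {d n : ℕ} (gr : L → Fin d) (hn : 5 ≤ n)

open Classical in
/-- the bijections for which the first `k` teams are placed according to `g` -/
noncomputable def EE [Fintype (L ≃ Fin n)] (g : Fin 5 → Fin d) (k : ℕ) : Finset (L ≃ Fin n) :=
  univ.filter fun σ => ∀ x : Fin 5, x.1 < k → gr (σ.symm (Fin.castLE hn x)) = g x

open Classical in
theorem fibre_card (σ : L ≃ Fin n) (hfib : ∀ i, (univ.filter fun l => gr l = i).card = d)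
    (g : Fin 5 → Fin d) (k : Fin 5)
    (hσ : ∀ x : Fin 5, x.1 < k.1 → gr (σ.symm (Fin.castLE hn x)) = g x) :
    ((univ.filter fun y : Fin n => k.1 ≤ y.1 ∧ gr (σ.symm y) = g k).card : ℤ) = mm g k := by
  have h1 : (univ.filter fun y : Fin n => gr (σ.symm y) = g k).card = d := by
    refine Eq.trans ?_ (hfib (g k))
    refine card_bij' (fun y _ => σ.symm y) (fun l _ => σ l) ?_ ?_ ?_ ?_
    · intro y hy; simpa using hy
    · intro l hl; simpa using hl
    · intro y _; simp
    · intro l _; simp
  have h2 : (univ.filter fun y : Fin n => y.1 < k.1 ∧ gr (σ.symm y) = g k).card =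
      (univ.filter fun x : Fin 5 => x.1 < k.1 ∧ g x = g k).card := by
    symm
    refine card_bij (fun x _ => Fin.castLE hn x) ?_ ?_ ?_
    · intro x hx
      simp only [mem_filter, mem_univ, true_and] at hx ⊢
      exact ⟨hx.1, (hσ x hx.1).trans hx.2⟩
    · intro x _ y _ hxy
      exact Fin.castLE_injective hn hxy
    · intro y hy
      simp only [mem_filter, mem_univ, true_and] at hy
      have h5 : y.1 < 5 := hy.1.trans k.2
      refine ⟨⟨y.1, h5⟩, ?_, Fin.ext rfl⟩
      simp only [mem_filter, mem_univ, true_and]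
      refine ⟨hy.1, ?_⟩
      rw [← hσ ⟨y.1, h5⟩ hy.1, ← hy.2]
      rfl
  have h3 : (univ.filter fun y : Fin n => gr (σ.symm y) = g k).card =
      (univ.filter fun y : Fin n => y.1 < k.1 ∧ gr (σ.symm y) = g k).card +
      (univ.filter fun y : Fin n => k.1 ≤ y.1 ∧ gr (σ.symm y) = g k).card := by
    rw [← card_union_of_disjoint]
    · congr 1
      ext y
      simp only [mem_filter, mem_univ, true_and, mem_union]
      constructor
      · intro h
        rcases lt_or_ge y.1 k.1 with h' | h'
        · exact Or.inl ⟨h', h⟩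
        · exact Or.inr ⟨h', h⟩
      · rintro (h | h)
        · exact h.2
        · exact h.2
    · rw [disjoint_filter]
      intro y _ h1 h2
      omega
  unfold mm
  rw [h1, h2] at h3
  omega

open Classical in
theorem step [Fintype (L ≃ Fin n)] (hfib : ∀ i, (univ.filter fun l => gr l = i).card = d)
    (g : Fin 5 → Fin d) (k : Fin 5) :
    ((n : ℤ) - k.1) * ((EE gr hn g (k.1 + 1)).card : ℤ) = (EE gr hn g k.1).card * mm g k := by
  -- double count
  have hd1 : ∑ y ∈ univ.filter (fun y : Fin n => k.1 ≤ y.1),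
      ((EE gr hn g k.1).filter fun σ => gr (σ.symm y) = g k).card =
      ∑ σ ∈ EE gr hn g k.1, (univ.filter fun y : Fin n => k.1 ≤ y.1 ∧ gr (σ.symm y) = g k).card := by
    simp only [card_filter]
    rw [sum_comm]
    refine sum_congr rfl fun σ _ => ?_
    rw [sum_filter]
    refine sum_congr rfl fun y _ => ?_
    by_cases h1 : k.1 ≤ y.1 <;> simp [h1]
  have hd2 : ∀ y ∈ univ.filter (fun y : Fin n => k.1 ≤ y.1),
      ((EE gr hn g k.1).filter fun σ => gr (σ.symm y) = g k).card = (EE gr hn g (k.1 + 1)).card := by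
    intro y hy
    simp only [mem_filter, mem_univ, true_and] at hy
    have hfix : ∀ x : Fin 5, x.1 < k.1 →
        Equiv.swap (Fin.castLE hn k) y (Fin.castLE hn x) = Fin.castLE hn x := by
      intro x hx
      apply Equiv.swap_apply_of_ne_of_ne
      · intro h
        have := congrArg Fin.val h
        simp only [Fin.val_castLE] at this
        omega
      · intro h
        have := congrArg Fin.val h
        simp only [Fin.val_castLE] at this
        omega
    refine card_bij' (fun σ _ => σ.trans (Equiv.swap (Fin.castLE hn k) y))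
      (fun σ _ => σ.trans (Equiv.swap (Fin.castLE hn k) y)) ?_ ?_ ?_ ?_
    · intro σ hσ
      simp only [EE, mem_filter, mem_univ, true_and] at hσ ⊢
      intro x hx
      rw [Equiv.symm_trans_apply, Equiv.symm_swap]
      rcases Nat.lt_succ_iff_lt_or_eq.1 hx with h | h
      · rw [hfix x h]
        exact hσ.1 x h
      · have hxk : x = k := Fin.ext h
        rw [hxk, Equiv.swap_apply_left]
        exact hσ.2
    · intro σ hσ
      simp only [EE, mem_filter, mem_univ, true_and] at hσ ⊢
      refine ⟨fun x hx => ?_, ?_⟩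
      · rw [Equiv.symm_trans_apply, Equiv.symm_swap, hfix x hx]
        exact hσ x (by omega)
      · rw [Equiv.symm_trans_apply, Equiv.symm_swap, Equiv.swap_apply_right]
        exact hσ k (by omega)
    · intro σ _
      ext l
      simp
    · intro σ _
      ext l
      simp
  have hd3 : (univ.filter (fun y : Fin n => k.1 ≤ y.1)).card = n - k.1 := by
    have hk : k.1 < n := by omega
    have h : (univ.filter (fun y : Fin n => k.1 ≤ y.1)) = Finset.Ici (⟨k.1, hk⟩ : Fin n) := by
      ext y
      simp only [mem_filter, mem_univ, true_and, Finset.mem_Ici, Fin.le_def]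
    rw [h, Fin.card_Ici]
  rw [sum_congr rfl hd2, sum_const, hd3, smul_eq_mul] at hd1
  have hkn : k.1 ≤ n := by omega
  have hd4 : ∀ σ ∈ EE gr hn g k.1,
      ((univ.filter fun y : Fin n => k.1 ≤ y.1 ∧ gr (σ.symm y) = g k).card : ℤ) = mm g k := by
    intro σ hσ
    simp only [EE, mem_filter, mem_univ, true_and] at hσ
    exact fibre_card gr hn σ hfib g k hσ
  have hd5 := congrArg (fun t : ℕ => (t : ℤ)) hd1
  simp only [Nat.cast_mul, Nat.cast_sum, Nat.cast_sub hkn] at hd5
  rw [sum_congr rfl hd4, sum_const, nsmul_eq_mul] at hd5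
  exact hd5

open Classical in
theorem count_five [Fintype (L ≃ Fin n)] (hfib : ∀ i, (univ.filter fun l => gr l = i).card = d)
    (g : Fin 5 → Fin d) :
    ((n : ℤ) * (n - 1) * (n - 2) * (n - 3) * (n - 4)) * ((EE gr hn g 5).card : ℤ) =
      Fintype.card (L ≃ Fin n) * wt g := by
  have h0 : (EE gr hn g 0).card = Fintype.card (L ≃ Fin n) := by
    unfold EE
    rw [filter_true_of_mem (fun σ _ x hx => absurd hx (Nat.not_lt_zero _)), card_univ]
  have s0 := step gr hn hfib g 0
  have s1 := step gr hn hfib g 1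
  have s2 := step gr hn hfib g 2
  have s3 := step gr hn hfib g 3
  have s4 := step gr hn hfib g 4
  have e0 : ((0 : Fin 5) : ℕ) = 0 := rfl
  have e1 : ((1 : Fin 5) : ℕ) = 1 := rfl
  have e2 : ((2 : Fin 5) : ℕ) = 2 := rfl
  have e3 : ((3 : Fin 5) : ℕ) = 3 := rfl
  have e4 : ((4 : Fin 5) : ℕ) = 4 := rfl
  rw [e0] at s0
  rw [e1] at s1
  rw [e2] at s2
  rw [e3] at s3
  rw [e4] at s4
  rw [h0] at s0
  norm_num at s0 s1 s2 s3 s4
  unfold wt
  generalize (EE gr hn g 1).card = c1 at *
  generalize (EE gr hn g 2).card = c2 at *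
  generalize (EE gr hn g 3).card = c3 at *
  generalize (EE gr hn g 4).card = c4 at *
  generalize (EE gr hn g 5).card = c5 at *
  calc ((n : ℤ) * (n - 1) * (n - 2) * (n - 3) * (n - 4)) * (c5 : ℤ)
      = (n : ℤ) * (n - 1) * (n - 2) * (n - 3) * ((n - 4) * (c5 : ℤ)) := by ring
    _ = (n : ℤ) * (n - 1) * (n - 2) * ((n - 3) * c4) * mm g 4 := by rw [s4]; ring
    _ = (n : ℤ) * (n - 1) * ((n - 2) * c3) * mm g 3 * mm g 4 := by rw [s3]; ring
    _ = (n : ℤ) * ((n - 1) * c2) * mm g 2 * mm g 3 * mm g 4 := by rw [s2]; ring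
    _ = ((n : ℤ) * c1) * mm g 1 * mm g 2 * mm g 3 * mm g 4 := by rw [s1]; ring
    _ = _ := by rw [s0]; ring

open Classical in
/-- summing a function of the placement of the five teams into groups -/
theorem sum_five [Fintype (L ≃ Fin n)] (hfib : ∀ i, (univ.filter fun l => gr l = i).card = d)
    (F : (Fin 5 → Fin d) → ℤ) :
    ((n : ℤ) * (n - 1) * (n - 2) * (n - 3) * (n - 4)) *
      ∑ σ : L ≃ Fin n, F (fun x => gr (σ.symm (Fin.castLE hn x))) =
      Fintype.card (L ≃ Fin n) * ∑ g : Fin 5 → Fin d, wt g * F g := by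
  have h1 : ∑ σ : L ≃ Fin n, F (fun x => gr (σ.symm (Fin.castLE hn x))) =
      ∑ g : Fin 5 → Fin d, ((EE gr hn g 5).card : ℤ) * F g := by
    rw [← sum_fiberwise univ (fun (σ : L ≃ Fin n) => (fun x : Fin 5 => gr (σ.symm (Fin.castLE hn x))))]
    refine sum_congr rfl fun g _ => ?_
    have h2 : (univ.filter fun σ : L ≃ Fin n => (fun x : Fin 5 => gr (σ.symm (Fin.castLE hn x))) = g)
        = EE gr hn g 5 := by
      ext σ
      simp only [EE, mem_filter, mem_univ, true_and]
      constructor
      · intro h x _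
        exact congrFun h x
      · intro h
        funext x
        exact h x x.2
    rw [h2]
    rw [sum_congr rfl (g := fun _ => F g) (fun σ hσ => ?_)]
    · rw [sum_const, nsmul_eq_mul]
    · simp only [EE, mem_filter, mem_univ, true_and] at hσ
      congr 1
      funext x
      exact hσ x x.2
  rw [h1, mul_sum, mul_sum]
  refine sum_congr rfl fun g _ => ?_
  rw [← mul_assoc, count_five gr hn hfib g]
  ring

end count

end Pool.Agent.X77.SB
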