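import Mathlib

/-!
# The random `d`-ary single elimination bracket: definitions
-/

set_option autoImplicit false

namespace Pool.Agent.X77.SB

open Finset

/-- A tournament on `N`: of two different teams exactly one beats the other. -/
structure Tour (N : Type) where
  beats : N → N → Prop
  irrefl : ∀ x, ¬ beats x x
  total : ∀ x y, x ≠ y → (beats x y ↔ ¬ beats y x)

/-- The leaves of the complete `d`-ary tree of height `h`: the child of the root, then a leaf of the
subtree of this child. -/
def Leaf (d : ℕ) : ℕ → Type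
  | 0 => Unit
  | h + 1 => Fin d × Leaf d h

/-- The marks of the inner nodes of the complete `d`-ary tree of height `h`: the mark of the root and
the marks in the subtrees of its children. -/
def Marks (d : ℕ) : ℕ → Type
  | 0 => Unit
  | h + 1 => Fin d × (Fin d → Marks d h)

instance finLeaf (d : ℕ) : ∀ h : ℕ, Finite (Leaf d h)
  | 0 => inferInstanceAs (Finite Unit)
  | h + 1 => by
      haveI := finLeaf d h
      exact inferInstanceAs (Finite (Fin d × Leaf d h))

instance finMarks (d : ℕ) : ∀ h : ℕ, Finite (Marks d h)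
  | 0 => inferInstanceAs (Finite Unit)
  | h + 1 => by
      haveI := finMarks d h
      exact inferInstanceAs (Finite (Fin d × (Fin d → Marks d h)))

noncomputable instance fintypeLeaf (d h : ℕ) : Fintype (Leaf d h) := Fintype.ofFinite _

noncomputable instance fintypeMarks (d h : ℕ) : Fintype (Marks d h) := Fintype.ofFinite _

open Classical in
/-- The label of an inner node with mark `m` whose children carry the labels `f`: the Condorcet winner
of the set of the labels if there is one, and otherwise the label of the child `m`. -/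
noncomputable def node {N : Type} {d : ℕ} (T : Tour N) (f : Fin d → N) (m : Fin d) : N :=
  if h : ∃ i, ∀ j, f j ≠ f i → T.beats (f i) (f j) then f h.choose else f m

/-- The label of the root, if the leaves carry the labels `p`. -/
noncomputable def win {N : Type} {d : ℕ} (T : Tour N) : (h : ℕ) → (Leaf d h → N) → Marks d h → N
  | 0, p, _ => p ()
  | h + 1, p, m => node T (fun i => win T h (fun l => p (i, l)) (m.2 i)) m.1

noncomputable instance fintypeEquiv (d h : ℕ) : Fintype (Leaf d h ≃ Fin (d ^ h)) :=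
  Fintype.ofFinite _

/-- `r_S(T)`: the probability that the winner lies in `S`, for a uniformly random bijection from the
leaves to the `d ^ h` teams and uniformly random marks. -/
noncomputable def prob (d h : ℕ) (T : Tour (Fin (d ^ h))) (S : Finset (Fin (d ^ h))) : ℝ :=
  (∑ σ : Leaf d h ≃ Fin (d ^ h), ∑ m : Marks d h, if win T h (fun l => σ l) m ∈ S then (1 : ℝ) else 0) /
    (Fintype.card (Leaf d h ≃ Fin (d ^ h)) * Fintype.card (Marks d h))

/-- `T` and `T'` agree on every match except possibly matches between two members of `S`. -/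
def Adj {N : Type} (S : Finset N) (T T' : Tour N) : Prop :=
  ∀ x y, ¬ (x ∈ S ∧ y ∈ S) → (T.beats x y ↔ T'.beats x y)

/-- The rule for `d ^ h` teams is `k`-SNM-`α`. -/
def IsSNM (d h k : ℕ) (α : ℝ) : Prop :=
  ∀ (T T' : Tour (Fin (d ^ h))) (S : Finset (Fin (d ^ h))), S.card ≤ k → Adj S T T' →
    prob d h T' S - prob d h T S ≤ α

/-- `α_{d,k}`: the least `α` such that R`d`SEB is `k`-SNM-`α` for every number `d ^ h`, `h ≥ 1`, of
teams. -/
noncomputable def alpha (d k : ℕ) : ℝ := sInf {α : ℝ | ∀ h : ℕ, 1 ≤ h → IsSNM d h k α}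

/-! ### nodes -/

theorem node_eq {N : Type} {d : ℕ} (T : Tour N) (f : Fin d → N) (m : Fin d) (i : Fin d)
    (hi : ∀ j, f j ≠ f i → T.beats (f i) (f j)) : node T f m = f i := by
  have h : ∃ i, ∀ j, f j ≠ f i → T.beats (f i) (f j) := ⟨i, hi⟩
  unfold node
  rw [dif_pos h]
  by_contra hne
  have h1 := h.choose_spec i (fun h' => hne h'.symm)
  have h2 := hi h.choose hne
  exact ((T.total _ _ hne).1 h1) h2

theorem node_none {N : Type} {d : ℕ} (T : Tour N) (f : Fin d → N) (m : Fin d)
    (h : ¬ ∃ i, ∀ j, f j ≠ f i → T.beats (f i) (f j)) : node T f m = f m := by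
  unfold node
  rw [dif_neg h]

theorem node_mem {N : Type} {d : ℕ} (T : Tour N) (f : Fin d → N) (m : Fin d) :
    ∃ i, node T f m = f i := by
  by_cases h : ∃ i, ∀ j, f j ≠ f i → T.beats (f i) (f j)
  · obtain ⟨i, hi⟩ := h
    exact ⟨i, node_eq T f m i hi⟩
  · exact ⟨m, node_none T f m h⟩

/-- a team which beats all others wins -/
theorem win_cw {N : Type} {d : ℕ} (T : Tour N) (a : N) (ha : ∀ x, x ≠ a → T.beats a x) :
    ∀ (h : ℕ) (p : Leaf d h → N) (m : Marks d h), (∃ l, p l = a) → win T h p m = a
  | 0, p, m, ⟨l, hl⟩ => by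
      show p () = a
      exact hl
  | h + 1, p, m, ⟨l, hl⟩ => by
      show node T (fun i => win T h (fun l => p (i, l)) (m.2 i)) m.1 = a
      have h1 : win T h (fun l' => p (l.1, l')) (m.2 l.1) = a :=
        win_cw T a ha h _ _ ⟨l.2, hl⟩
      rw [node_eq T _ m.1 l.1 (fun j hj => ?_)]
      · exact h1
      · show T.beats (win T h (fun l' => p (l.1, l')) (m.2 l.1)) _
        rw [h1]
        apply ha
        intro h2
        apply hj
        show win T h (fun l => p (j, l)) (m.2 j) = win T h (fun l' => p (l.1, l')) (m.2 l.1)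
        rw [h1]
        exact h2

theorem card_pos (d h : ℕ) (hd : 0 < d) (hc : Nonempty (Leaf d h ≃ Fin (d ^ h))) :
    (0 : ℝ) < Fintype.card (Leaf d h ≃ Fin (d ^ h)) * Fintype.card (Marks d h) := by
  have h1 : 0 < Fintype.card (Leaf d h ≃ Fin (d ^ h)) := Fintype.card_pos
  have h2 : Nonempty (Marks d h) := by
    clear hc h1
    induction h with
    | zero => exact ⟨()⟩
    | succ h ih =>
      obtain ⟨m⟩ := ih
      exact ⟨((⟨0, hd⟩, fun _ => m) : Fin d × (Fin d → Marks d h))⟩
  have h3 : 0 < Fintype.card (Marks d h) := Fintype.card_pos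
  positivity

theorem card_leaf (d : ℕ) : ∀ h : ℕ, Fintype.card (Leaf d h) = d ^ h
  | 0 => by
      rw [pow_zero, Fintype.card_eq_one_iff]
      exact ⟨(), fun _ => rfl⟩
  | h + 1 => by
      have h1 : Fintype.card (Leaf d (h + 1)) = Fintype.card (Fin d × Leaf d h) :=
        Fintype.card_congr (Equiv.refl _)
      rw [h1, Fintype.card_prod, Fintype.card_fin, card_leaf d h, pow_succ, mul_comm]

theorem nonempty_equiv (d h : ℕ) : Nonempty (Leaf d h ≃ Fin (d ^ h)) :=
  ⟨Fintype.equivFinOfCardEq (card_leaf d h)⟩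

/-- if `a ∈ S` beats all others, then `r_S = 1` -/
theorem prob_cw (d h : ℕ) (hd : 0 < d) (T : Tour (Fin (d ^ h))) (S : Finset (Fin (d ^ h)))
    (a : Fin (d ^ h)) (haS : a ∈ S) (ha : ∀ x, x ≠ a → T.beats a x) : prob d h T S = 1 := by
  unfold prob
  have h0 := card_pos d h hd (nonempty_equiv d h)
  rw [div_eq_one_iff_eq h0.ne']
  have h1 : ∀ (σ : Leaf d h ≃ Fin (d ^ h)) (m : Marks d h),
      win T h (fun l => σ l) m = a := fun σ m =>
    win_cw T a ha h _ m ⟨σ.symm a, σ.apply_symm_apply a⟩
  simp only [h1, haS, if_true, sum_const, card_univ, nsmul_eq_mul, mul_one]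

theorem alpha_ge (d k h : ℕ) (hd : 0 < d) (hh : 1 ≤ h) (β : ℝ)
    (T T' : Tour (Fin (d ^ h))) (S : Finset (Fin (d ^ h))) (hS : S.card ≤ k) (hA : Adj S T T')
    (hβ : β ≤ prob d h T' S - prob d h T S) : β ≤ alpha d k := by
  classical
  refine le_csInf ⟨1, fun h' _ T T' S _ _ => ?_⟩ (fun α hα => hβ.trans (hα h hh T T' S hS hA))
  have h0 := card_pos d h' hd (nonempty_equiv d h')
  have h1 : prob d h' T' S ≤ 1 := by
    unfold prob
    rw [div_le_one h0]
    calc (∑ σ : Leaf d h' ≃ Fin (d ^ h'), ∑ m : Marks d h',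
          if win T' h' (fun l => σ l) m ∈ S then (1 : ℝ) else 0)
        ≤ ∑ _σ : Leaf d h' ≃ Fin (d ^ h'), ∑ _m : Marks d h', (1 : ℝ) :=
          sum_le_sum fun σ _ => sum_le_sum fun m _ => by split_ifs <;> norm_num
      _ = _ := by simp
  have h2 : 0 ≤ prob d h' T S := by
    unfold prob
    apply div_nonneg _ h0.le
    exact sum_nonneg fun σ _ => sum_nonneg fun m _ => by split_ifs <;> norm_num
  linarith

end Pool.Agent.X77.SB
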