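import Pool.Agent.X77.SB.Count

set_option autoImplicit false

namespace Pool.Agent.X77.SB

open Finset

/-! ### the sum over the marks -/

/-- the relevant marks in height two -/
def marksEquiv (d : ℕ) : Marks d 2 ≃ Fin d × (Fin d → Fin d) where
  toFun m := (m.1, fun i => (m.2 i).1)
  invFun q := (q.1, fun i => (q.2 i, fun _ => ()))
  left_inv m := rfl
  right_inv q := rfl

theorem card_marks (d : ℕ) : Fintype.card (Marks d 2) = d * d ^ d := by
  rw [Fintype.card_congr (marksEquiv d), Fintype.card_prod, Fintype.card_fun, Fintype.card_fin]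

theorem sum_at {d : ℕ} (A : Fin d) (φ : Fin d → ℤ) :
    (d : ℤ) * ∑ ν : Fin d → Fin d, φ (ν A) = (d : ℤ) ^ d * ∑ j, φ j := by
  have h1 : ∑ ν : Fin d → Fin d, φ (ν A) =
      ∑ q : Fin d × ({j // j ≠ A} → Fin d), φ q.1 :=
    Fintype.sum_equiv (Equiv.funSplitAt A (Fin d)) _ _ fun ν => rfl
  have h2 : (d : ℤ) * (Fintype.card ({j // j ≠ A} → Fin d) : ℤ) = (d : ℤ) ^ d := by
    have h3 := Fintype.card_congr (Equiv.funSplitAt A (Fin d))
    rw [Fintype.card_prod, Fintype.card_fun, Fintype.card_fin] at h3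
    rw [← Nat.cast_pow, h3]
    push_cast
    rfl
  rw [h1, Fintype.sum_prod_type]
  simp only [sum_const, card_univ, nsmul_eq_mul]
  rw [← mul_sum, ← mul_assoc, h2]

/-- a leaf in height two -/
def lf {d : ℕ} (i j : Fin d) : Leaf d 2 := (i, (j, ()))

theorem lf_surj {d : ℕ} (l : Leaf d 2) : lf l.1 l.2.1 = l := rfl

theorem win_two {N : Type} {d : ℕ} (T : Tour N) (p : Leaf d 2 → N) (m : Marks d 2) :
    win T 2 p m = node T (fun i => node T (fun j => p (lf i j)) (m.2 i).1) m.1 := rfl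

theorem cl_win {n d : ℕ} (p : Leaf d 2 → Fin n) (m : Marks d 2) :
    cl (win (tT n) 2 p m).1 =
      nodeK (fun i => nodeK (fun j => cl (p (lf i j)).1) (m.2 i).1) m.1 := by
  rw [win_two, node_cl]
  congr 1
  funext i
  rw [node_cl]

section groups

variable {d : ℕ} (hn : 5 ≤ d ^ 2) (σ : Leaf d 2 ≃ Fin (d ^ 2))

/-- the group of team `x` -/
def gg (x : Fin 5) : Fin d := (σ.symm (Fin.castLE hn x)).1

theorem ex_team (i : Fin d) (x : Fin 5) :
    (∃ j, (σ (lf i j)).1 = x.1) ↔ gg hn σ x = i := by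
  constructor
  · rintro ⟨j, hj⟩
    have h1 : σ (lf i j) = Fin.castLE hn x := Fin.ext hj
    unfold gg
    rw [← h1, σ.symm_apply_apply]
    rfl
  · intro h
    refine ⟨(σ.symm (Fin.castLE hn x)).2.1, ?_⟩
    have h2 : σ (lf i (σ.symm (Fin.castLE hn x)).2.1) = Fin.castLE hn x := by
      rw [← h]
      unfold gg
      rw [lf_surj, σ.apply_symm_apply]
    rw [h2]
    rfl

theorem ex_two (i : Fin d) : (∃ j, cl (σ (lf i j)).1 = 2) ↔ i = gg hn σ 4 := by
  simp only [cl_eq_two]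
  exact (ex_team hn σ i 4).trans eq_comm

theorem ex_zero (i : Fin d) :
    (∃ j, cl (σ (lf i j)).1 = 0) ↔ (gg hn σ 0 = i ∨ gg hn σ 1 = i) := by
  simp only [cl_eq_zero]
  rw [← ex_team hn σ i 0, ← ex_team hn σ i 1, ← exists_or]
  refine exists_congr fun j => ?_
  have e0 : ((0 : Fin 5) : ℕ) = 0 := rfl
  have e1 : ((1 : Fin 5) : ℕ) = 1 := rfl
  rw [e0, e1]
  omega

theorem ex_one (i : Fin d) :
    (∃ j, cl (σ (lf i j)).1 = 1) ↔ (gg hn σ 2 = i ∨ gg hn σ 3 = i) := by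
  simp only [cl_eq_one]
  rw [← ex_team hn σ i 2, ← ex_team hn σ i 3, ← exists_or]
  refine exists_congr fun j => ?_
  have e0 : ((2 : Fin 5) : ℕ) = 2 := rfl
  have e1 : ((3 : Fin 5) : ℕ) = 3 := rfl
  rw [e0, e1]
  omega

theorem group_other (i : Fin d) (hi : i ≠ gg hn σ 4) (z : Fin 4) (m : Fin d) :
    nodeK (fun j => cl (σ (lf i j)).1) m = stat (gg hn σ) z i := by
  unfold nodeK stat
  rw [if_neg hi, if_neg (fun h => hi ((ex_two hn σ i).1 h))]
  simp only [ex_zero hn σ i, ex_one hn σ i]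

/-- the sum of a function vanishing on the teams from `5` on over a group -/
theorem sum_group (i : Fin d) (G : ℕ → ℤ) (hG : ∀ v, 5 ≤ v → G v = 0) :
    ∑ j : Fin d, G (σ (lf i j)).1 = ∑ x : Fin 5, if gg hn σ x = i then G x.1 else 0 := by
  classical
  have h1 : ∑ j : Fin d, G (σ (lf i j)).1 = ∑ l : Leaf d 2, if l.1 = i then G (σ l).1 else 0 := by
    rw [Fintype.sum_equiv (⟨fun l => (l.1, l.2.1), fun q => lf q.1 q.2, fun _ => rfl,
      fun _ => rfl⟩ : Leaf d 2 ≃ Fin d × Fin d) (fun l => if l.1 = i then G (σ l).1 else 0)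
      (fun q : Fin d × Fin d => if q.1 = i then G (σ (lf q.1 q.2)).1 else 0) (fun l => rfl)]
    symm
    rw [Fintype.sum_prod_type]
    rw [sum_eq_single i]
    · simp
    · intro b _ hb
      simp [hb]
    · intro h
      exact absurd (mem_univ i) h
  have h2 : ∑ l : Leaf d 2, (if l.1 = i then G (σ l).1 else 0) =
      ∑ v : Fin (d ^ 2), if (σ.symm v).1 = i then G v.1 else 0 :=
    Fintype.sum_equiv σ _ _ fun l => by rw [σ.symm_apply_apply]
  have h3 : ∑ v : Fin (d ^ 2), (if (σ.symm v).1 = i then G v.1 else 0) =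
      ∑ x : Fin 5, if (σ.symm (Fin.castLE hn x)).1 = i then G (Fin.castLE hn x).1 else 0 := by
    symm
    rw [← sum_image (s := univ) (g := fun x : Fin 5 => Fin.castLE hn x)
      (f := fun v : Fin (d ^ 2) => if (σ.symm v).1 = i then G v.1 else 0)
      (fun x _ y _ h => Fin.castLE_injective hn h)]
    apply sum_subset (subset_univ _)
    intro v _ hv
    have hv5 : 5 ≤ v.1 := by
      by_contra hlt
      apply hv
      rw [mem_image]
      exact ⟨⟨v.1, by omega⟩, mem_univ _, Fin.ext rfl⟩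
    rw [hG v.1 hv5, ite_self]
  rw [h1, h2, h3]
  rfl

/-- the group of team `4` -/
theorem group_four (F : Fin 4 → ℤ) :
    ∑ m : Fin d, F (nodeK (fun j => cl (σ (lf (gg hn σ 4) j)).1) m) =
      if gg hn σ 2 ≠ gg hn σ 4 ∧ gg hn σ 3 ≠ gg hn σ 4 then d * F 2 else
      if gg hn σ 0 ≠ gg hn σ 4 ∧ gg hn σ 1 ≠ gg hn σ 4 then d * F 1 else
      (∑ x : Fin 5, if gg hn σ x = gg hn σ 4 then F (cl x.1) - F 3 else 0) + d * F 3 := by
  have h2 := (ex_two hn σ (gg hn σ 4)).2 rfl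
  have h1 : (∀ j, cl (σ (lf (gg hn σ 4) j)).1 ≠ 1) ↔
      (gg hn σ 2 ≠ gg hn σ 4 ∧ gg hn σ 3 ≠ gg hn σ 4) := by
    have := not_congr (ex_one hn σ (gg hn σ 4))
    push Not at this
    exact this
  have h0 : (∀ j, cl (σ (lf (gg hn σ 4) j)).1 ≠ 0) ↔
      (gg hn σ 0 ≠ gg hn σ 4 ∧ gg hn σ 1 ≠ gg hn σ 4) := by
    have := not_congr (ex_zero hn σ (gg hn σ 4))
    push Not at this
    exact this
  unfold nodeK
  simp only [if_pos h2, h1, h0]
  split_ifs with ha hb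
  · simp
  · simp
  · have h3 := sum_group hn σ (gg hn σ 4) (fun v => F (cl v) - F 3) (fun v hv => by
      have : cl v = 3 := (cl_eq_three v).2 (by omega)
      rw [this, sub_self])
    rw [← h3, sum_sub_distrib]
    simp

/-- the number of good marks for a given placement -/
theorem sum_marks :
    (d : ℤ) * ∑ m : Marks d 2,
      (if (cl (win (tT (d ^ 2)) 2 (fun l => σ l) m).1 = 1 ∨
        cl (win (tT (d ^ 2)) 2 (fun l => σ l) m).1 = 2) then (1 : ℤ) else 0) =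
      (d : ℤ) ^ d * gd (gg hn σ) := by
  have h1 : ∑ m : Marks d 2,
      (if (cl (win (tT (d ^ 2)) 2 (fun l => σ l) m).1 = 1 ∨
        cl (win (tT (d ^ 2)) 2 (fun l => σ l) m).1 = 2) then (1 : ℤ) else 0) =
      ∑ q : Fin d × (Fin d → Fin d),
        (if (nodeK (fun i => nodeK (fun j => cl (σ (lf i j)).1) (q.2 i)) q.1 = 1 ∨
          nodeK (fun i => nodeK (fun j => cl (σ (lf i j)).1) (q.2 i)) q.1 = 2)
            then (1 : ℤ) else 0) := by
    refine Fintype.sum_equiv (marksEquiv d) _ _ fun m => ?_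
    rw [cl_win]
    rfl
  have h2 : ∀ ν : Fin d → Fin d,
      (fun i => nodeK (fun j => cl (σ (lf i j)).1) (ν i)) =
        stat (gg hn σ) (nodeK (fun j => cl (σ (lf (gg hn σ 4) j)).1) (ν (gg hn σ 4))) := by
    intro ν
    funext i
    by_cases hi : i = gg hn σ 4
    · subst hi
      unfold stat
      rw [if_pos rfl]
    · exact group_other hn σ i hi _ _
  rw [h1, Fintype.sum_prod_type_right]
  simp only [h2]
  have h3 := sum_at (gg hn σ 4) (fun m => rt (gg hn σ)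
    (nodeK (fun j => cl (σ (lf (gg hn σ 4) j)).1) m))
  unfold rt at h3
  rw [h3]
  congr 1
  have h4 := group_four hn σ (fun z => rt (gg hn σ) z)
  unfold gd
  rw [← h4]
  rfl

end groups

/-- the coalition -/
def SS (n : ℕ) : Finset (Fin n) := univ.filter fun v => 2 ≤ v.1 ∧ v.1 ≤ 4

theorem mem_SS {n : ℕ} (v : Fin n) : v ∈ SS n ↔ (cl v.1 = 1 ∨ cl v.1 = 2) := by
  unfold SS
  simp only [mem_filter, mem_univ, true_and, cl_eq_one, cl_eq_two]
  omega

theorem card_SS (n : ℕ) : (SS n).card ≤ 3 := by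
  have h : (SS n).card ≤ (Finset.Icc 2 4).card := by
    refine card_le_card_of_injOn (fun v => v.1) ?_ ?_
    · intro v hv
      simp only [SS, coe_filter, mem_univ, true_and, Set.mem_ofPred_eq] at hv
      simp only [coe_Icc, Set.mem_Icc]
      exact hv
    · intro x _ y _ h
      exact Fin.ext h
  simpa using h

theorem adj (n : ℕ) : Adj (SS n) (tT n) (tU n) := by
  intro x y hxy
  simp only [SS, mem_filter, mem_univ, true_and] at hxy
  show (if x.1 = 4 then (y.1 ≠ 4 ∧ y.1 ≠ 2 ∧ y.1 ≠ 3) else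
    if y.1 = 4 then (x.1 = 2 ∨ x.1 = 3) else x.1 < y.1) ↔
    (if x.1 = 4 then y.1 ≠ 4 else if y.1 = 4 then False else x.1 < y.1)
  by_cases hx : x.1 = 4
  · rw [if_pos hx, if_pos hx]
    omega
  · rw [if_neg hx, if_neg hx]
    by_cases hy : y.1 = 4
    · rw [if_pos hy, if_pos hy]
      simp only [iff_false]
      omega
    · rw [if_neg hy, if_neg hy]

theorem fib (d : ℕ) (i : Fin d) : (univ.filter fun l : Leaf d 2 => l.1 = i).card = d := by
  classical
  have h : (univ.filter fun l : Leaf d 2 => l.1 = i).card = (univ : Finset (Fin d)).card := by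
    refine card_bij' (fun l _ => l.2.1) (fun j _ => lf i j) ?_ ?_ ?_ ?_
    · intro l _; exact mem_univ _
    · intro j _; exact mem_filter.2 ⟨mem_univ _, rfl⟩
    · intro l hl
      simp only [mem_filter, mem_univ, true_and] at hl
      subst hl
      rfl
    · intro j _; rfl
  rw [h, card_univ, Fintype.card_fin]

theorem prob_eq (d : ℕ) (hd : 0 < d) (hn : 5 ≤ d ^ 2) (c : ℤ)
    (hc : ∑ g : Fin 5 → Fin d, wt g * gd g = c) :
    prob d 2 (tT (d ^ 2)) (SS (d ^ 2)) * (((d : ℝ) ^ 2) * (((d : ℝ) ^ 2) * ((d : ℝ) ^ 2 - 1) *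
      ((d : ℝ) ^ 2 - 2) * ((d : ℝ) ^ 2 - 3) * ((d : ℝ) ^ 2 - 4))) = c := by
  classical
  have h0 := card_pos d 2 hd (nonempty_equiv d 2)
  have hΩ : (0 : ℝ) < Fintype.card (Leaf d 2 ≃ Fin (d ^ 2)) := by
    have := nonempty_equiv d 2
    exact_mod_cast Fintype.card_pos
  have hd' : (0 : ℝ) < d := by exact_mod_cast hd
  -- the number of good pairs
  have h1 : (d : ℤ) * ∑ σ : Leaf d 2 ≃ Fin (d ^ 2), ∑ m : Marks d 2,
      (if (cl (win (tT (d ^ 2)) 2 (fun l => σ l) m).1 = 1 ∨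
        cl (win (tT (d ^ 2)) 2 (fun l => σ l) m).1 = 2) then (1 : ℤ) else 0) =
      (d : ℤ) ^ d * ∑ σ : Leaf d 2 ≃ Fin (d ^ 2), gd (gg hn σ) := by
    rw [mul_sum, mul_sum]
    exact sum_congr rfl fun σ _ => sum_marks hn σ
  have h2 := sum_five (L := Leaf d 2) (d := d) (n := d ^ 2) (fun l => l.1) hn
    (fun i => fib d i) (fun g => gd g)
  rw [hc] at h2
  have h3 : ∑ σ : Leaf d 2 ≃ Fin (d ^ 2), ∑ m : Marks d 2,
      (if win (tT (d ^ 2)) 2 (fun l => σ l) m ∈ SS (d ^ 2) then (1 : ℝ) else 0) =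
      ((∑ σ : Leaf d 2 ≃ Fin (d ^ 2), ∑ m : Marks d 2,
      (if (cl (win (tT (d ^ 2)) 2 (fun l => σ l) m).1 = 1 ∨
        cl (win (tT (d ^ 2)) 2 (fun l => σ l) m).1 = 2) then (1 : ℤ) else 0) : ℤ) : ℝ) := by
    push_cast
    refine sum_congr rfl fun σ _ => sum_congr rfl fun m _ => ?_
    simp only [mem_SS]
    
  have h4 := congrArg (fun t : ℤ => (t : ℝ)) h1
  have h5 := congrArg (fun t : ℤ => (t : ℝ)) h2
  simp only [Int.cast_mul, Int.cast_natCast, Int.cast_pow, Int.cast_sub, Int.cast_one,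
    Int.cast_ofNat, Nat.cast_pow] at h4 h5
  have h6 : (∑ σ : Leaf d 2 ≃ Fin (d ^ 2), gd (gg hn σ)) =
      ∑ σ : Leaf d 2 ≃ Fin (d ^ 2), gd (fun x => (σ.symm (Fin.castLE hn x)).1) := rfl
  unfold prob
  rw [h3, card_marks]
  rw [h6] at h4
  set X : ℝ := ((∑ σ : Leaf d 2 ≃ Fin (d ^ 2), ∑ m : Marks d 2,
      (if (cl (win (tT (d ^ 2)) 2 (fun l => σ l) m).1 = 1 ∨
        cl (win (tT (d ^ 2)) 2 (fun l => σ l) m).1 = 2) then (1 : ℤ) else 0) : ℤ) : ℝ) with hX
  set Y : ℝ := ((∑ σ : Leaf d 2 ≃ Fin (d ^ 2), gd (fun x => (σ.symm (Fin.castLE hn x)).1) : ℤ) : ℝ)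
    with hY
  set P : ℝ := ((d : ℝ) ^ 2) * ((d : ℝ) ^ 2 - 1) *
      ((d : ℝ) ^ 2 - 2) * ((d : ℝ) ^ 2 - 3) * ((d : ℝ) ^ 2 - 4) with hP
  set Ω : ℝ := (Fintype.card (Leaf d 2 ≃ Fin (d ^ 2)) : ℝ) with hΩd
  have h5' : P * Y = Ω * c := h5
  have h4' : (d : ℝ) * X = (d : ℝ) ^ d * Y := h4
  push_cast
  rw [div_mul_eq_mul_div, div_eq_iff (by positivity)]
  have h7 : X * ((d : ℝ) ^ 2 * P) = (d : ℝ) * P * ((d : ℝ) * X) := by ring
  rw [h7, h4']
  have h8 : (d : ℝ) * P * ((d : ℝ) ^ d * Y) = (d : ℝ) * (d : ℝ) ^ d * (P * Y) := by ring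
  rw [h8, h5']
  ring

end Pool.Agent.X77.SB
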