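import Pool.Agent.X77.SB.Defs

set_option autoImplicit false

namespace Pool.Agent.X77.SB

open Finset

/-- The true tournament on the teams `0, 1, …`: team `4` loses to `2` and `3` and beats all others;
among the others the smaller number wins. -/
def tT (n : ℕ) : Tour (Fin n) where
  beats x y := if x.1 = 4 then (y.1 ≠ 4 ∧ y.1 ≠ 2 ∧ y.1 ≠ 3) else
    if y.1 = 4 then (x.1 = 2 ∨ x.1 = 3) else x.1 < y.1
  irrefl x := by
    split_ifs with h
    · tauto
    · omega
  total x y h := by
    have h1 : x.1 ≠ y.1 := fun h' => h (Fin.ext h')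
    split_ifs <;> omega

/-- The manipulated tournament: team `4` beats all others. -/
def tU (n : ℕ) : Tour (Fin n) where
  beats x y := if x.1 = 4 then y.1 ≠ 4 else if y.1 = 4 then False else x.1 < y.1
  irrefl x := by
    split_ifs with h
    · tauto
    · omega
  total x y h := by
    have h1 : x.1 ≠ y.1 := fun h' => h (Fin.ext h')
    by_cases hx : x.1 = 4 <;> by_cases hy : y.1 = 4 <;> simp only [hx, hy, if_true, if_false,
      ne_eq, not_true_eq_false, not_false_eq_true, reduceCtorEq, not_lt] <;> omega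

/-- The class of a team: `0` for teams `0, 1`; `1` for `2, 3`; `2` for `4`; `3` for all others. -/
def cl (v : ℕ) : Fin 4 := if v < 2 then 0 else if v < 4 then 1 else if v = 4 then 2 else 3

/-- The rule of a node on classes. -/
def nodeK {d : ℕ} (f : Fin d → Fin 4) (m : Fin d) : Fin 4 :=
  if ∃ i, f i = 2 then (if ∀ i, f i ≠ 1 then 2 else if ∀ i, f i ≠ 0 then 1 else f m) else
    if ∃ i, f i = 0 then 0 else if ∃ i, f i = 1 then 1 else 3

theorem cl_eq_zero (v : ℕ) : cl v = 0 ↔ v < 2 := by
  unfold cl; split_ifs <;> simp_all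

theorem cl_eq_one (v : ℕ) : cl v = 1 ↔ (2 ≤ v ∧ v < 4) := by
  unfold cl; split_ifs <;> simp_all <;> omega

theorem cl_eq_two (v : ℕ) : cl v = 2 ↔ v = 4 := by
  unfold cl; split_ifs <;> simp_all <;> omega

theorem cl_eq_three (v : ℕ) : cl v = 3 ↔ 4 < v := by
  unfold cl; split_ifs <;> simp_all <;> omega

theorem node_cl {n d : ℕ} (f : Fin d → Fin n) (m : Fin d) :
    cl (node (tT n) f m).1 = nodeK (fun i => cl (f i).1) m := by
  unfold nodeK
  simp only [cl_eq_two, ne_eq, cl_eq_one, cl_eq_zero]
  have hne : (univ : Finset (Fin d)).Nonempty := ⟨m, mem_univ m⟩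
  have hval : ∀ i j, (f j).1 = (f i).1 → f j = f i := fun i j h => Fin.ext h
  split_ifs with h1 h2 h3 h4 h5
  · obtain ⟨i, hi⟩ := h1
    rw [node_eq (tT n) f m i (fun j hj => ?_), cl_eq_two]
    · exact hi
    · have h6 : (f j).1 ≠ (f i).1 := fun h => hj (hval i j h)
      have h7 := h2 j
      show (if (f i).1 = 4 then ((f j).1 ≠ 4 ∧ (f j).1 ≠ 2 ∧ (f j).1 ≠ 3) else _)
      rw [if_pos hi]
      omega
  · -- the smallest B
    have hB : (univ.filter fun i => 2 ≤ (f i).1 ∧ (f i).1 < 4).Nonempty := by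
      push Not at h2
      obtain ⟨i, hi⟩ := h2
      exact ⟨i, by simp only [mem_filter, mem_univ, true_and]; omega⟩
    obtain ⟨i, hi, himin⟩ := exists_min_image _ (fun i => (f i).1) hB
    simp only [mem_filter, mem_univ, true_and] at hi himin
    rw [node_eq (tT n) f m i (fun j hj => ?_), cl_eq_one]
    · exact hi
    · have h6 : (f j).1 ≠ (f i).1 := fun h => hj (hval i j h)
      have h7 := h3 j
      have h8 := himin j
      show (if (f i).1 = 4 then _ else if (f j).1 = 4 then ((f i).1 = 2 ∨ (f i).1 = 3)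
        else (f i).1 < (f j).1)
      rw [if_neg (by omega)]
      split_ifs with h9
      · omega
      · omega
  · rw [node_none]
    rintro ⟨i, hi⟩
    obtain ⟨a, ha⟩ := h1
    push Not at h2 h3
    obtain ⟨b, hb⟩ := h2
    obtain ⟨c, hc⟩ := h3
    have ka : f a ≠ f i → (if (f i).1 = 4 then ((f a).1 ≠ 4 ∧ (f a).1 ≠ 2 ∧ (f a).1 ≠ 3) else
      if (f a).1 = 4 then ((f i).1 = 2 ∨ (f i).1 = 3) else (f i).1 < (f a).1) := hi a
    have kb : f b ≠ f i → (if (f i).1 = 4 then ((f b).1 ≠ 4 ∧ (f b).1 ≠ 2 ∧ (f b).1 ≠ 3) else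
      if (f b).1 = 4 then ((f i).1 = 2 ∨ (f i).1 = 3) else (f i).1 < (f b).1) := hi b
    have kc : f c ≠ f i → (if (f i).1 = 4 then ((f c).1 ≠ 4 ∧ (f c).1 ≠ 2 ∧ (f c).1 ≠ 3) else
      if (f c).1 = 4 then ((f i).1 = 2 ∨ (f i).1 = 3) else (f i).1 < (f c).1) := hi c
    have ea : f a = f i ↔ (f a).1 = (f i).1 := ⟨fun h => by rw [h], fun h => Fin.ext h⟩
    have eb : f b = f i ↔ (f b).1 = (f i).1 := ⟨fun h => by rw [h], fun h => Fin.ext h⟩
    have ec : f c = f i ↔ (f c).1 = (f i).1 := ⟨fun h => by rw [h], fun h => Fin.ext h⟩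
    rw [Ne, ea] at ka
    rw [Ne, eb] at kb
    rw [Ne, ec] at kc
    split_ifs at ka kb kc <;> omega
  · obtain ⟨i, hi, himin⟩ := exists_min_image _ (fun i => (f i).1) hne
    simp only [mem_univ, true_and, forall_const] at hi himin
    obtain ⟨c, hc⟩ := h4
    rw [node_eq (tT n) f m i (fun j hj => ?_), cl_eq_zero]
    · have := himin c; omega
    · have h6 : (f j).1 ≠ (f i).1 := fun h => hj (hval i j h)
      have h8 := himin j
      push Not at h1
      have h9 := h1 i
      have h10 := h1 j
      show (if (f i).1 = 4 then _ else if (f j).1 = 4 then _ else (f i).1 < (f j).1)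
      rw [if_neg h9, if_neg h10]
      omega
  · obtain ⟨i, hi, himin⟩ := exists_min_image _ (fun i => (f i).1) hne
    simp only [mem_univ, true_and, forall_const] at hi himin
    obtain ⟨c, hc⟩ := h5
    push Not at h4
    rw [node_eq (tT n) f m i (fun j hj => ?_), cl_eq_one]
    · have := himin c; have := h4 i; omega
    · have h6 : (f j).1 ≠ (f i).1 := fun h => hj (hval i j h)
      have h8 := himin j
      push Not at h1
      have h9 := h1 i
      have h10 := h1 j
      show (if (f i).1 = 4 then _ else if (f j).1 = 4 then _ else (f i).1 < (f j).1)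
      rw [if_neg h9, if_neg h10]
      omega
  · obtain ⟨i, hi, himin⟩ := exists_min_image _ (fun i => (f i).1) hne
    simp only [mem_univ, true_and, forall_const] at hi himin
    push Not at h4 h5 h1
    rw [node_eq (tT n) f m i (fun j hj => ?_), cl_eq_three]
    · have := h4 i; have := h5 i; have := h1 i; omega
    · have h6 : (f j).1 ≠ (f i).1 := fun h => hj (hval i j h)
      have h8 := himin j
      have h9 := h1 i
      have h10 := h1 j
      show (if (f i).1 = 4 then _ else if (f j).1 = 4 then _ else (f i).1 < (f j).1)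
      rw [if_neg h9, if_neg h10]
      omega

end Pool.Agent.X77.SB
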