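import Pool.Agent.X77.SB.Node

set_option autoImplicit false

namespace Pool.Agent.X77.SB

open Finset

/-- The classes of the labels of the children of the root, if the child `g 4` (the group of team `4`)
has class `z`. -/
def stat {d : ℕ} (g : Fin 5 → Fin d) (z : Fin 4) (i : Fin d) : Fin 4 :=
  if i = g 4 then z else if g 0 = i ∨ g 1 = i then 0 else if g 2 = i ∨ g 3 = i then 1 else 3

/-- The number of marks of the root for which the winner lies in `{2, 3, 4}`. -/
def rt {d : ℕ} (g : Fin 5 → Fin d) (z : Fin 4) : ℤ :=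
  ∑ m : Fin d, if (nodeK (stat g z) m = 1 ∨ nodeK (stat g z) m = 2) then 1 else 0

/-- The sum of `rt` over the marks of the group of team `4`. -/
def gd {d : ℕ} (g : Fin 5 → Fin d) : ℤ :=
  if g 2 ≠ g 4 ∧ g 3 ≠ g 4 then d * rt g 2 else if g 0 ≠ g 4 ∧ g 1 ≠ g 4 then d * rt g 1 else
    (∑ x : Fin 5, if g x = g 4 then rt g (cl x.1) - rt g 3 else 0) + d * rt g 3

/-- `d` minus the number of earlier teams in the same group. -/
def mm {d : ℕ} (g : Fin 5 → Fin d) (k : Fin 5) : ℤ :=
  (d : ℤ) - ((univ.filter fun x : Fin 5 => x.1 < k.1 ∧ g x = g k).card : ℤ)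

/-- The weight of a placement into groups. -/
def wt {d : ℕ} (g : Fin 5 → Fin d) : ℤ := mm g 0 * mm g 1 * mm g 2 * mm g 3 * mm g 4

theorem sum_three : ∑ g : Fin 5 → Fin 3, wt g * gd g = 62532 := by decide +kernel

theorem sum_four : ∑ g : Fin 5 → Fin 4, wt g * gd g = 3548160 := by decide +kernel

end Pool.Agent.X77.SB
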