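import Pool.Agent.X77.SB.Main

set_option autoImplicit false

namespace Pool.Agent.X77.SB

open Finset

/-- A tournament without Condorcet winner in which team `0` loses to team `1` only. -/
def oT (n : ℕ) : Tour (Fin n) where
  beats x y := if x.1 = 0 then (y.1 ≠ 0 ∧ y.1 ≠ 1) else if y.1 = 0 then x.1 = 1 else
    if x.1 = 1 then 3 ≤ y.1 else if y.1 = 1 then x.1 = 2 else x.1 < y.1
  irrefl x := by
    split_ifs <;> omega
  total x y h := by
    have h1 : x.1 ≠ y.1 := fun h' => h (Fin.ext h')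
    split_ifs <;> omega

/-- The same tournament, but team `0` beats team `1`. -/
def oU (n : ℕ) : Tour (Fin n) where
  beats x y := if x.1 = 0 then y.1 ≠ 0 else if y.1 = 0 then 1 < 0 else
    if x.1 = 1 then 3 ≤ y.1 else if y.1 = 1 then x.1 = 2 else x.1 < y.1
  irrefl x := by
    split_ifs <;> omega
  total x y h := by
    have h1 : x.1 ≠ y.1 := fun h' => h (Fin.ext h')
    split_ifs <;> omega

/-- the coalition -/
def S2 (n : ℕ) : Finset (Fin n) := univ.filter fun v => v.1 < 2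

theorem card_S2 (n : ℕ) : (S2 n).card ≤ 2 := by
  have h : (S2 n).card ≤ (Finset.range 2).card := by
    refine card_le_card_of_injOn (fun v => v.1) ?_ ?_
    · intro v hv
      simp only [S2, coe_filter, mem_univ, true_and, Set.mem_ofPred_eq] at hv
      simp only [coe_range, Set.mem_Iio]
      exact hv
    · intro x _ y _ h
      exact Fin.ext h
  simpa using h

theorem adj2 (n : ℕ) : Adj (S2 n) (oT n) (oU n) := by
  intro x y hxy
  simp only [S2, mem_filter, mem_univ, true_and] at hxy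
  show (if x.1 = 0 then (y.1 ≠ 0 ∧ y.1 ≠ 1) else if y.1 = 0 then x.1 = 1 else
    if x.1 = 1 then 3 ≤ y.1 else if y.1 = 1 then x.1 = 2 else x.1 < y.1) ↔
    (if x.1 = 0 then y.1 ≠ 0 else if y.1 = 0 then 1 < 0 else
    if x.1 = 1 then 3 ≤ y.1 else if y.1 = 1 then x.1 = 2 else x.1 < y.1)
  split_ifs <;> omega

theorem prob_one (d : ℕ) (hd : 3 ≤ d) :
    prob d 1 (oT (d ^ 1)) (S2 (d ^ 1)) ≤ 2 / d := by
  have hΩ : (0 : ℝ) < Fintype.card (Leaf d 1 ≃ Fin (d ^ 1)) := by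
    have := nonempty_equiv d 1
    exact_mod_cast Fintype.card_pos
  have hd' : (0 : ℝ) < d := by
    have : 0 < d := by omega
    exact_mod_cast this
  have hm : Fintype.card (Marks d 1) = d := by
    rw [Fintype.card_congr (⟨fun m => m.1, fun i => (i, fun _ => ()), fun _ => rfl, fun _ => rfl⟩ :
      Marks d 1 ≃ Fin d), Fintype.card_fin]
  have h1 : ∀ σ : Leaf d 1 ≃ Fin (d ^ 1), ∑ m : Marks d 1,
      (if win (oT (d ^ 1)) 1 (fun l => σ l) m ∈ S2 (d ^ 1) then (1 : ℝ) else 0) ≤ 2 := by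
    intro σ
    have h2 : ∀ m : Marks d 1, win (oT (d ^ 1)) 1 (fun l => σ l) m = σ (m.1, ()) := by
      intro m
      show node (oT (d ^ 1)) (fun i => σ (i, ())) m.1 = _
      rw [node_none]
      rintro ⟨i, hi⟩
      -- every team loses to some team
      have hex : ∀ v : Fin (d ^ 1), ∃ j : Fin d, σ (j, ()) = v := fun v =>
        ⟨(σ.symm v).1, σ.apply_symm_apply v⟩
      have hdd : 3 ≤ d ^ 1 := by rw [pow_one]; exact hd
      obtain ⟨a, ha⟩ := hex ⟨0, by omega⟩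
      obtain ⟨b, hb⟩ := hex ⟨1, by omega⟩
      obtain ⟨c, hc⟩ := hex ⟨2, by omega⟩
      have ka := hi a
      have kb := hi b
      have kc := hi c
      simp only [ha, hb, hc] at ka kb kc
      have ka' : (⟨0, by omega⟩ : Fin (d ^ 1)) ≠ σ (i, ()) →
        (if (σ (i, ())).1 = 0 then ((0 : ℕ) ≠ 0 ∧ (0 : ℕ) ≠ 1) else if (0 : ℕ) = 0 then
          (σ (i, ())).1 = 1 else
          if (σ (i, ())).1 = 1 then 3 ≤ (0 : ℕ) else if (0 : ℕ) = 1 then (σ (i, ())).1 = 2 else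
          (σ (i, ())).1 < (0 : ℕ)) := ka
      have kb' : (⟨1, by omega⟩ : Fin (d ^ 1)) ≠ σ (i, ()) →
        (if (σ (i, ())).1 = 0 then ((1 : ℕ) ≠ 0 ∧ (1 : ℕ) ≠ 1) else if (1 : ℕ) = 0 then
          (σ (i, ())).1 = 1 else
          if (σ (i, ())).1 = 1 then 3 ≤ (1 : ℕ) else if (1 : ℕ) = 1 then (σ (i, ())).1 = 2 else
          (σ (i, ())).1 < (1 : ℕ)) := kb
      have kc' : (⟨2, by omega⟩ : Fin (d ^ 1)) ≠ σ (i, ()) →
        (if (σ (i, ())).1 = 0 then ((2 : ℕ) ≠ 0 ∧ (2 : ℕ) ≠ 1) else if (2 : ℕ) = 0 then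
          (σ (i, ())).1 = 1 else
          if (σ (i, ())).1 = 1 then 3 ≤ (2 : ℕ) else if (2 : ℕ) = 1 then (σ (i, ())).1 = 2 else
          (σ (i, ())).1 < (2 : ℕ)) := kc
      simp only [ne_eq, Fin.ext_iff] at ka' kb' kc'
      generalize (σ (i, ())).1 = w at ka' kb' kc'
      by_cases h0 : w = 0
      · subst h0
        simp at kb'
      · by_cases h1 : w = 1
        · subst h1
          simp at kc'
        · have := ka' (fun h => h0 h.symm)
          rw [if_neg h0, if_pos trivial] at this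
          exact h1 this
    simp only [h2]
    have h3 : ∑ m : Marks d 1, (if σ (m.1, ()) ∈ S2 (d ^ 1) then (1 : ℝ) else 0) =
        ∑ v : Fin (d ^ 1), if v ∈ S2 (d ^ 1) then (1 : ℝ) else 0 :=
      Fintype.sum_equiv ((⟨fun m => (m.1, ()), fun l => (l.1, fun _ => ()), fun _ => rfl,
        fun _ => rfl⟩ : Marks d 1 ≃ Leaf d 1).trans σ) _ _ fun m => rfl
    rw [h3]
    simp only [sum_ite_mem, univ_inter, sum_const, nsmul_eq_mul, mul_one]
    exact_mod_cast card_S2 (d ^ 1)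
  unfold prob
  rw [hm, div_le_div_iff₀ (by positivity) hd']
  calc (∑ σ : Leaf d 1 ≃ Fin (d ^ 1), ∑ m : Marks d 1,
      (if win (oT (d ^ 1)) 1 (fun l => σ l) m ∈ S2 (d ^ 1) then (1 : ℝ) else 0)) * d
      ≤ (∑ _σ : Leaf d 1 ≃ Fin (d ^ 1), (2 : ℝ)) * d :=
        mul_le_mul_of_nonneg_right (sum_le_sum fun σ _ => h1 σ) hd'.le
    _ = _ := by
        rw [sum_const, card_univ, nsmul_eq_mul]
        ring

theorem alpha_one (d k : ℕ) (hd : 3 ≤ d) (hk : 2 ≤ k) : 1 - 2 / (d : ℝ) ≤ alpha d k := by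
  have hdd : 3 ≤ d ^ 1 := by rw [pow_one]; exact hd
  refine alpha_ge d k 1 (by omega) le_rfl _ (oT (d ^ 1)) (oU (d ^ 1)) (S2 (d ^ 1))
    ((card_S2 _).trans hk) (adj2 _) ?_
  rw [prob_cw d 1 (by omega) (oU (d ^ 1)) (S2 (d ^ 1)) ⟨0, by omega⟩ (by simp [S2]) (fun x hx => ?_)]
  · have := prob_one d hd
    linarith
  · have h1 : x.1 ≠ 0 := fun h => hx (Fin.ext h)
    show (if (0 : ℕ) = 0 then x.1 ≠ 0 else if x.1 = 0 then 1 < 0 else
      if (0 : ℕ) = 1 then 3 ≤ x.1 else if x.1 = 1 then (0 : ℕ) = 2 else 0 < x.1)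
    rw [if_pos rfl]
    exact h1

theorem alpha_two (d k : ℕ) (hd : 0 < d) (hn : 5 ≤ d ^ 2) (hk : 3 ≤ k) (q : ℝ)
    (hq : prob d 2 (tT (d ^ 2)) (SS (d ^ 2)) ≤ 1 - q) : q ≤ alpha d k := by
  refine alpha_ge d k 2 hd (by norm_num) _ (tT (d ^ 2)) (tU (d ^ 2)) (SS (d ^ 2))
    ((card_SS _).trans hk) (adj _) ?_
  rw [prob_cw d 2 hd (tU (d ^ 2)) (SS (d ^ 2)) ⟨4, by omega⟩ (by simp [SS]) (fun x hx => ?_)]
  · linarith
  · have h1 : x.1 ≠ 4 := fun h => hx (Fin.ext h)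
    show (if (4 : ℕ) = 4 then x.1 ≠ 4 else if x.1 = 4 then False else 4 < x.1)
    rw [if_pos rfl]
    exact h1

theorem alpha_three (k : ℕ) (hk : 3 ≤ k) : (227 / 420 : ℝ) ≤ alpha 3 k := by
  refine alpha_two 3 k (by norm_num) (by norm_num) hk _ ?_
  have h := prob_eq 3 (by norm_num) (by norm_num) 62532 sum_three
  norm_num at h
  norm_num
  linarith

theorem alpha_four (k : ℕ) (hk : 3 ≤ k) : (15 / 26 : ℝ) ≤ alpha 4 k := by
  refine alpha_two 4 k (by norm_num) (by norm_num) hk _ ?_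
  have h := prob_eq 4 (by norm_num) (by norm_num) 3548160 sum_four
  norm_num at h
  norm_num
  linarith

/-- the least `α` is attained -/
theorem alpha_least (d k : ℕ) (hd : 0 < d) :
    IsLeast {α : ℝ | ∀ h : ℕ, 1 ≤ h → IsSNM d h k α} (alpha d k) := by
  refine ⟨fun h hh T T' S hS hA => ?_, fun α hα => csInf_le ⟨0, fun β hβ => ?_⟩ hα⟩
  · exact alpha_ge d k h hd hh _ T T' S hS hA le_rfl
  · have := hβ 1 le_rfl (oT (d ^ 1)) (oT (d ^ 1)) ∅ (by simp) (fun x y _ => Iff.rfl)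
    linarith

end Pool.Agent.X77.SB
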